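import Mathlib

/-!
The mean abandonment rate of the M/M/m+M queue is strictly increasing and strictly convex in the
arrival rate, with a smooth derivative that increases to `1`.

Idea of the proof: if `Γ` solves the Poisson equation `x Γ(i+1) - d i Γ(i) = E_x f - f i`, then
`E_y f - E_x f = (y - x) E_y Γ(N+1)`.  A discrete minimum principle shows that `Γ` is nondecreasing,
so that the slope from `x` to `y` is increasing in `y`.
-/

open Filter Topology Finset

namespace Pool.Agent.Results.MP_e714e3_pr.Convexity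

noncomputable section

/-! ## Definitions used in the statement -/

/-- The two disciplines: deadline to the beginning of service, deadline to the end of service. -/
inductive Discipline
  | DBS
  | DES

/-- Total abandonment rate `L(i)` with `i` jobs present: `(i-m)^+ θ` under DBS, `i θ` under DES.
(`i - m` below is truncated subtraction of natural numbers, that is `(i-m)^+`.) -/
def abandonRate (D : Discipline) (m : ℕ) (θ : ℝ) (i : ℕ) : ℝ :=
  match D with
  | Discipline.DBS => ((i - m : ℕ) : ℝ) * θ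
  | Discipline.DES => (i : ℝ) * θ

/-- Death rate `d_i = min(i,m) μ + L(i)` of the number in system. -/
def deathRate (D : Discipline) (m : ℕ) (μ θ : ℝ) (i : ℕ) : ℝ :=
  ((min i m : ℕ) : ℝ) * μ + abandonRate D m θ i

/-- The weight `∏_{j=1}^{i} lam / d_j`. -/
def weight (D : Discipline) (m : ℕ) (μ θ lam : ℝ) (i : ℕ) : ℝ :=
  ∏ j ∈ Finset.Icc 1 i, lam / deathRate D m μ θ j

/-- The stationary law `π_i`, proportional to `∏_{j=1}^{i} lam / d_j`. -/
def statLaw (D : Discipline) (m : ℕ) (μ θ lam : ℝ) (i : ℕ) : ℝ :=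
  weight D m μ θ lam i / ∑' j, weight D m μ θ lam j

/-- The mean abandonment rate `ℓ(lam) = ∑_i π_i L(i)`. -/
def meanAbandonRate (D : Discipline) (m : ℕ) (μ θ lam : ℝ) : ℝ :=
  ∑' i, statLaw D m μ θ lam i * abandonRate D m θ i

/-! ## Birth-death chains with strictly increasing death rates -/

section general

variable (d : ℕ → ℝ)

/-- `w i = 1 / (d 1 ⋯ d i)` -/
def w : ℕ → ℝ
  | 0 => 1
  | i + 1 => w i / d (i + 1)

/-- death rates: vanish at `0`, strictly increasing, at least linear -/
structure Good (c0 : ℝ) : Prop where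
  zero : d 0 = 0
  inc : ∀ i, d i < d (i + 1)
  pos : 0 < c0
  lin : ∀ i : ℕ, c0 * i ≤ d i

variable {d} {c0 : ℝ}

lemma Good.mono (h : Good d c0) : StrictMono d := strictMono_nat_of_lt_succ h.inc

lemma Good.dpos (h : Good d c0) (i : ℕ) : 0 < d (i + 1) := by
  have := h.mono (Nat.succ_pos i)
  rwa [h.zero] at this

lemma Good.dnonneg (h : Good d c0) (i : ℕ) : 0 ≤ d i := by
  rw [← h.zero]; exact h.mono.monotone (Nat.zero_le i)

lemma Good.wpos (h : Good d c0) (i : ℕ) : 0 < w d i := by
  induction i with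
  | zero => exact one_pos
  | succ i ih => exact div_pos ih (h.dpos i)

lemma Good.dw (h : Good d c0) (i : ℕ) : d (i + 1) * w d (i + 1) = w d i := by
  have := h.dpos i
  change d (i + 1) * (w d i / d (i + 1)) = w d i
  field_simp

lemma Good.w_le (h : Good d c0) (i : ℕ) : w d i ≤ (1 / c0) ^ i / i.factorial := by
  induction i with
  | zero => simp [w]
  | succ i ih =>
    have hc := h.pos
    have h1 : c0 * ((i + 1 : ℕ) : ℝ) ≤ d (i + 1) := h.lin (i + 1)
    have h2 : 0 < c0 * ((i + 1 : ℕ) : ℝ) := by positivity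
    change w d i / d (i + 1) ≤ _
    calc w d i / d (i + 1) ≤ ((1 / c0) ^ i / i.factorial) / (c0 * ((i + 1 : ℕ) : ℝ)) := by
          apply div_le_div₀ (by positivity) ih h2 h1
      _ = _ := by
        rw [Nat.factorial_succ, pow_succ]
        push_cast
        field_simp

lemma Good.w_add (h : Good d c0) (i k : ℕ) : w d (i + k) ≤ w d i * w d k := by
  induction k with
  | zero => simp [w]
  | succ k ih =>
    change w d (i + k) / d (i + k + 1) ≤ w d i * (w d k / d (k + 1))
    rw [← mul_div_assoc]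
    have h1 : d (k + 1) ≤ d (i + k + 1) := h.mono.monotone (by omega)
    exact div_le_div₀ (mul_nonneg (h.wpos i).le (h.wpos k).le) ih (h.dpos k) h1

lemma one_add_le_two_pow (i : ℕ) : (1 + i : ℝ) ≤ 2 ^ i := by
  have : i + 1 ≤ 2 ^ i := Nat.lt_two_pow_self
  have h2 : ((i + 1 : ℕ) : ℝ) ≤ ((2 ^ i : ℕ) : ℝ) := by exact_mod_cast this
  push_cast at h2
  linarith

lemma Good.summable_lin (h : Good d c0) {x : ℝ} (hx : 0 ≤ x) :
    Summable (fun i : ℕ => (1 + i : ℝ) * w d i * x ^ i) := by
  have hc := h.pos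
  refine Summable.of_nonneg_of_le (fun i => ?_) (fun i => ?_)
    (Real.summable_pow_div_factorial (2 * (1 / c0) * x))
  · have := h.wpos i
    positivity
  · have h1 := one_add_le_two_pow i
    have h2 := h.w_le i
    have h3 := h.wpos i
    calc (1 + i : ℝ) * w d i * x ^ i ≤ 2 ^ i * ((1 / c0) ^ i / i.factorial) * x ^ i := by gcongr
      _ = _ := by rw [mul_pow, mul_pow]; ring

/-- linear growth -/
def Lin (f : ℕ → ℝ) : Prop := ∃ C, ∀ i : ℕ, |f i| ≤ C * (1 + i)

lemma Lin.of_bdd {f : ℕ → ℝ} {C : ℝ} (h : ∀ i, |f i| ≤ C) : Lin f := by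
  have hC : 0 ≤ C := (abs_nonneg _).trans (h 0)
  refine ⟨C, fun i => (h i).trans ?_⟩
  have : (0 : ℝ) ≤ i := Nat.cast_nonneg i
  nlinarith

lemma Good.summable (h : Good d c0) {f : ℕ → ℝ} (hf : Lin f) {x : ℝ} (hx : 0 ≤ x) :
    Summable (fun i => f i * w d i * x ^ i) := by
  obtain ⟨C, hC⟩ := hf
  have hs := (h.summable_lin hx).mul_left C
  refine Summable.of_norm_bounded hs (fun i => ?_)
  rw [Real.norm_eq_abs, abs_mul, abs_mul, abs_of_pos (h.wpos i), abs_of_nonneg (pow_nonneg hx i)]
  have h3 := h.wpos i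
  calc |f i| * w d i * x ^ i ≤ (C * (1 + i)) * w d i * x ^ i := by gcongr; exact hC i
    _ = _ := by ring

variable (d)

def W (x : ℝ) : ℝ := ∑' i, w d i * x ^ i

def F (f : ℕ → ℝ) (x : ℝ) : ℝ := ∑' i, f i * w d i * x ^ i

/-- stationary expectation -/
def Ex (f : ℕ → ℝ) (x : ℝ) : ℝ := F d f x / W d x

variable {d}

lemma Good.summableW (h : Good d c0) {x : ℝ} (hx : 0 ≤ x) : Summable (fun i => w d i * x ^ i) := by
  have := h.summable (f := fun _ => 1) (Lin.of_bdd (C := 1) (by simp)) hx
  simpa using this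

lemma Good.Wpos (h : Good d c0) {x : ℝ} (hx : 0 ≤ x) : 0 < W d x := by
  have h1 : w d 0 * x ^ 0 ≤ W d x :=
    (h.summableW hx).le_tsum 0 (fun i _ => mul_nonneg (h.wpos i).le (pow_nonneg hx i))
  have : w d 0 * x ^ 0 = 1 := by simp [w]
  linarith

lemma Ex_add (h : Good d c0) {f g : ℕ → ℝ} (hf : Lin f) (hg : Lin g) {x : ℝ} (hx : 0 ≤ x) :
    Ex d (fun i => f i + g i) x = Ex d f x + Ex d g x := by
  unfold Ex F
  rw [← add_div, ← (h.summable hf hx).tsum_add (h.summable hg hx)]
  congr 2
  ext i; ring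

lemma Ex_smul (a : ℝ) (f : ℕ → ℝ) (x : ℝ) :
    Ex d (fun i => a * f i) x = a * Ex d f x := by
  unfold Ex F
  rw [← mul_div_assoc, ← tsum_mul_left]
  congr 2
  ext i; ring

lemma Ex_const (h : Good d c0) (a : ℝ) {x : ℝ} (hx : 0 ≤ x) : Ex d (fun _ => a) x = a := by
  unfold Ex F
  have : ∑' i, a * w d i * x ^ i = a * W d x := by
    unfold W
    rw [← tsum_mul_left]
    congr 1; ext i; ring
  rw [this]
  exact mul_div_cancel_right₀ a (h.Wpos hx).ne'

lemma Ex_pos (h : Good d c0) {f : ℕ → ℝ} (hf : Lin f) (h0 : ∀ i, 0 ≤ f i) {k : ℕ} (hk : 0 < f k)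
    {x : ℝ} (hx : 0 < x) : 0 < Ex d f x := by
  unfold Ex
  apply div_pos _ (h.Wpos hx.le)
  have h1 : f k * w d k * x ^ k ≤ F d f x :=
    (h.summable hf hx.le).le_tsum k (fun i _ => mul_nonneg (mul_nonneg (h0 i) (h.wpos i).le)
      (pow_nonneg hx.le i))
  have h2 := h.wpos k
  have : 0 < f k * w d k * x ^ k := by positivity
  linarith

/-- solution of the Poisson equation (shifted): `x * Gam (i+1) = c - f i + d i * Gam i`. -/
def Gam (d f : ℕ → ℝ) (x c : ℝ) : ℕ → ℝ
  | 0 => 0
  | i + 1 => (c - f i + d i * Gam d f x c i) / x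

lemma Gam_eq (f : ℕ → ℝ) {x : ℝ} (hx : 0 < x) (c : ℝ) (i : ℕ) :
    x * Gam d f x c (i + 1) = c - f i + d i * Gam d f x c i := by
  change x * ((c - f i + d i * Gam d f x c i) / x) = _
  field_simp

lemma Gam_closed (h : Good d c0) (f : ℕ → ℝ) {x : ℝ} (hx : 0 < x) (c : ℝ) (i : ℕ) :
    w d i * x ^ (i + 1) * Gam d f x c (i + 1) = ∑ j ∈ range (i + 1), (c - f j) * w d j * x ^ j := by
  induction i with
  | zero =>
    have := Gam_eq (d := d) f hx c 0
    rw [h.zero] at this
    simp [w]
    linarith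
  | succ i ih =>
    rw [sum_range_succ, ← ih]
    have h1 := Gam_eq (d := d) f hx c (i + 1)
    have h2 := h.dw i
    calc w d (i + 1) * x ^ (i + 1 + 1) * Gam d f x c (i + 1 + 1)
        = w d (i + 1) * x ^ (i + 1) * (x * Gam d f x c (i + 1 + 1)) := by ring
      _ = w d (i + 1) * x ^ (i + 1) * (c - f (i + 1) + d (i + 1) * Gam d f x c (i + 1)) := by rw [h1]
      _ = (d (i + 1) * w d (i + 1)) * x ^ (i + 1) * Gam d f x c (i + 1)
          + (c - f (i + 1)) * w d (i + 1) * x ^ (i + 1) := by ring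
      _ = _ := by rw [h2]

lemma Gam_tail (h : Good d c0) {f : ℕ → ℝ} (hf : Lin f) {x : ℝ} (hx : 0 < x) (i : ℕ) :
    w d i * x ^ (i + 1) * Gam d f x (Ex d f x) (i + 1)
      = ∑' k, (f (k + (i + 1)) - Ex d f x) * w d (k + (i + 1)) * x ^ (k + (i + 1)) := by
  rw [Gam_closed h f hx]
  set c := Ex d f x with hc
  have hs : Summable (fun j => (c - f j) * w d j * x ^ j) := by
    have h1 := h.summable (f := fun _ => c) (Lin.of_bdd (C := |c|) (fun _ => le_rfl)) hx.le
    have h2 := (h.summable hf hx.le)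
    refine (h1.sub h2).congr (fun j => ?_)
    ring
  have htot : ∑' j, (c - f j) * w d j * x ^ j = 0 := by
    have h1 := h.summable (f := fun _ => c) (Lin.of_bdd (C := |c|) (fun _ => le_rfl)) hx.le
    have h2 := (h.summable hf hx.le)
    have h3 : ∑' j, (c - f j) * w d j * x ^ j = F d (fun _ => c) x - F d f x := by
      unfold F
      rw [← h1.tsum_sub h2]
      congr 1; ext j; ring
    have h4 := Ex_const h c hx.le
    unfold Ex at h4
    rw [h3]
    have hW := (h.Wpos hx.le).ne'
    have h5 : F d (fun _ => c) x = c * W d x := by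
      field_simp at h4; linarith
    rw [h5, hc]
    unfold Ex
    field_simp
    ring
  have h6 := hs.sum_add_tsum_nat_add (i + 1)
  rw [htot] at h6
  have h7 : ∑' k, (f (k + (i + 1)) - c) * w d (k + (i + 1)) * x ^ (k + (i + 1))
      = - ∑' k, (c - f (k + (i + 1))) * w d (k + (i + 1)) * x ^ (k + (i + 1)) := by
    rw [← tsum_neg]
    congr 1; ext k; ring
  rw [h7]
  linarith

lemma Gam_bdd (h : Good d c0) {f : ℕ → ℝ} (hf : Lin f) {x : ℝ} (hx : 0 < x) :
    ∃ B, ∀ i, |Gam d f x (Ex d f x) i| ≤ B := by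
  set c := Ex d f x with hc
  obtain ⟨C, hC⟩ := hf
  have hC0 : 0 ≤ C := by
    have := (abs_nonneg _).trans (hC 0)
    simpa using this
  have hcp := h.pos
  set A := (C + |c|) * (2 / c0) with hA
  have hA0 : 0 ≤ A := by positivity
  refine ⟨A * W d x, ?_⟩
  intro i
  rcases i with _ | i
  · change |(0 : ℝ)| ≤ _
    rw [abs_zero]
    exact mul_nonneg hA0 (h.Wpos hx.le).le
  · have hw := h.wpos i
    have hpos : 0 < w d i * x ^ (i + 1) := by positivity
    have h1 := Gam_tail h ⟨C, hC⟩ hx i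
    rw [← hc] at h1
    have hterm : ∀ k, ‖(f (k + (i + 1)) - c) * w d (k + (i + 1)) * x ^ (k + (i + 1))‖
        ≤ (w d i * x ^ (i + 1)) * A * (w d k * x ^ k) := by
      intro k
      have hk := h.wpos k
      have hki := h.wpos (k + (i + 1))
      rw [Real.norm_eq_abs, abs_mul, abs_mul, abs_of_pos hki, abs_of_pos (by positivity : 0 < x ^ (k + (i + 1)))]
      have e1 : |f (k + (i + 1)) - c| ≤ (C + |c|) * (1 + ((k + (i + 1) : ℕ) : ℝ)) := by
        have := hC (k + (i + 1))
        have h2 := abs_sub (f (k + (i + 1))) c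
        have h3 : (0 : ℝ) ≤ ((k + (i + 1) : ℕ) : ℝ) := Nat.cast_nonneg _
        nlinarith [abs_nonneg c]
      have e2 : (1 + ((k + (i + 1) : ℕ) : ℝ)) * w d (k + (i + 1)) ≤ 2 / c0 * w d (i + k) := by
        have h3 := h.dw (i + k)
        rw [show k + (i + 1) = i + k + 1 by ring]
        have h4 := h.lin (i + k + 1)
        have h5 := h.wpos (i + k + 1)
        rw [← h3, div_mul_eq_mul_div, le_div_iff₀ hcp]
        have h6 : (1 + ((i + k + 1 : ℕ) : ℝ)) * c0 ≤ 2 * d (i + k + 1) := by
          have : (0 : ℝ) ≤ i + k := by positivity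
          push_cast at h4 ⊢
          nlinarith
        nlinarith
      have e3 := h.w_add i k
      calc |f (k + (i + 1)) - c| * w d (k + (i + 1)) * x ^ (k + (i + 1))
          ≤ ((C + |c|) * (1 + ((k + (i + 1) : ℕ) : ℝ))) * w d (k + (i + 1)) * x ^ (k + (i + 1)) := by gcongr
        _ = (C + |c|) * ((1 + ((k + (i + 1) : ℕ) : ℝ)) * w d (k + (i + 1))) * x ^ (k + (i + 1)) := by ring
        _ ≤ (C + |c|) * (2 / c0 * w d (i + k)) * x ^ (k + (i + 1)) := by gcongr
        _ ≤ (C + |c|) * (2 / c0 * (w d i * w d k)) * x ^ (k + (i + 1)) := by gcongr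
        _ = _ := by rw [hA, pow_add]; ring
    have h2 : |w d i * x ^ (i + 1) * Gam d f x c (i + 1)| ≤ (w d i * x ^ (i + 1)) * A * W d x := by
      rw [h1, ← Real.norm_eq_abs]
      refine tsum_of_norm_bounded ?_ hterm
      exact ((h.summableW hx.le).hasSum).mul_left _
    rw [abs_mul, abs_of_pos hpos, mul_assoc (w d i * x ^ (i + 1)) A] at h2
    exact le_of_mul_le_mul_left h2 hpos

lemma Gam_nonneg (h : Good d c0) {f : ℕ → ℝ} (hf : Lin f) (hmono : Monotone f) {x : ℝ} (hx : 0 < x)
    (i : ℕ) : 0 ≤ Gam d f x (Ex d f x) i := by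
  rcases i with _ | i
  · exact le_rfl
  · have hw := h.wpos i
    have hpos : 0 < w d i * x ^ (i + 1) := by positivity
    have key : 0 ≤ w d i * x ^ (i + 1) * Gam d f x (Ex d f x) (i + 1) := by
      by_cases hall : ∀ j ∈ range (i + 1), f j ≤ Ex d f x
      · rw [Gam_closed h f hx]
        apply sum_nonneg
        intro j hj
        have := hall j hj
        have := h.wpos j
        have h3 : 0 ≤ Ex d f x - f j := by linarith
        positivity
      · push Not at hall
        obtain ⟨j, hj, hlt⟩ := hall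
        rw [Gam_tail h hf hx]
        apply tsum_nonneg
        intro k
        have h1 : f j ≤ f (k + (i + 1)) := hmono (by have := mem_range.1 hj; omega)
        have := h.wpos (k + (i + 1))
        have h3 : 0 ≤ f (k + (i + 1)) - Ex d f x := by linarith
        positivity
    exact nonneg_of_mul_nonneg_right key hpos

lemma Gam_step (f : ℕ → ℝ) {x : ℝ} (hx : 0 < x) (c : ℝ) (i : ℕ) :
    (x + d (i + 1)) * Gam d f x c (i + 1)
      = x * Gam d f x c (i + 2) + d i * Gam d f x c i + (f (i + 1) - f i) := by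
  have h1 := Gam_eq (d := d) f hx c i
  have h2 := Gam_eq (d := d) f hx c (i + 1)
  linarith

/-- performance difference -/
lemma perf (h : Good d c0) {f : ℕ → ℝ} (hf : Lin f) {x y : ℝ} (hx : 0 < x) (hy : 0 < y) :
    Ex d f y - Ex d f x = (y - x) * Ex d (fun i => Gam d f x (Ex d f x) (i + 1)) y := by
  set c := Ex d f x with hc
  obtain ⟨B, hB⟩ := Gam_bdd h hf hx
  rw [← hc] at hB
  set G : ℕ → ℝ := fun i => Gam d f x c (i + 1) with hG
  have hGl : Lin G := Lin.of_bdd (C := B) (fun i => hB (i + 1))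
  have hdG : Lin (fun i => d i * Gam d f x c i) := by
    obtain ⟨C, hC⟩ := hf
    have hC0 : 0 ≤ C := by
      have := (abs_nonneg _).trans (hC 0)
      simpa using this
    have hB0 : 0 ≤ B := (abs_nonneg _).trans (hB 0)
    refine ⟨x * B + |c| + C, fun i => ?_⟩
    have h1 := Gam_eq (d := d) f hx c i
    have h2 : d i * Gam d f x c i = x * Gam d f x c (i + 1) - c + f i := by linarith
    simp only
    rw [h2]
    have h3 : |x * Gam d f x c (i + 1) - c + f i| ≤ x * B + |c| + C * (1 + i) := by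
      refine (abs_add_le _ _).trans ?_
      refine add_le_add ((abs_sub _ _).trans ?_) (hC i)
      refine add_le_add ?_ le_rfl
      rw [abs_mul, abs_of_pos hx]
      exact mul_le_mul_of_nonneg_left (hB _) hx.le
    have h4 : (0 : ℝ) ≤ i := Nat.cast_nonneg i
    have h5 : 0 ≤ (x * B + |c|) * i := by positivity
    nlinarith
  -- balance
  have hbal : F d (fun i => d i * Gam d f x c i) y = y * F d G y := by
    unfold F
    have hs := h.summable hdG hy.le
    rw [hs.tsum_eq_zero_add, ← tsum_mul_left]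
    rw [h.zero]
    simp only [zero_mul, zero_add]
    congr 1
    ext i
    have := h.dw i
    simp only [hG]
    calc d (i + 1) * Gam d f x c (i + 1) * w d (i + 1) * y ^ (i + 1)
        = (d (i + 1) * w d (i + 1)) * Gam d f x c (i + 1) * y ^ (i + 1) := by ring
      _ = _ := by rw [this]; ring
  have hbal' : Ex d (fun i => d i * Gam d f x c i) y = y * Ex d G y := by
    unfold Ex
    rw [hbal, mul_div_assoc]
  have h1 : Ex d (fun i => x * G i) y = Ex d (fun i => (c + (-1) * f i) + d i * Gam d f x c i) y := by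
    congr 1
    ext i
    have := Gam_eq (d := d) f hx c i
    simp only [hG]
    linarith
  have hcl : Lin (fun _ : ℕ => c) := Lin.of_bdd (C := |c|) (fun _ => le_rfl)
  have hfl : Lin (fun i => (-1) * f i) := by
    obtain ⟨C, hC⟩ := hf
    exact ⟨C, fun i => by simpa using hC i⟩
  have hcfl : Lin (fun i => c + (-1) * f i) := by
    obtain ⟨C, hC⟩ := hf
    refine ⟨|c| + C, fun i => ?_⟩
    have h4 : (0 : ℝ) ≤ i := Nat.cast_nonneg i
    refine (abs_add_le _ _).trans ?_
    have := hC i
    have e : |(-1) * f i| = |f i| := by rw [abs_mul]; simp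
    rw [e]
    nlinarith [abs_nonneg c]
  rw [Ex_smul, Ex_add h hcfl hdG hy.le, Ex_add h hcl hfl hy.le, Ex_const h c hy.le, Ex_smul, hbal'] at h1
  linarith

/-- strict monotonicity of expectations of nondecreasing nonconstant functions -/
lemma Ex_strictMono (h : Good d c0) {f : ℕ → ℝ} (hf : Lin f) (hmono : Monotone f) {k : ℕ}
    (hk : f k < f (k + 1)) {x y : ℝ} (hx : 0 < x) (hxy : x < y) : Ex d f x < Ex d f y := by
  have hy : 0 < y := hx.trans hxy
  have h1 := perf h hf hx hy
  obtain ⟨B, hB⟩ := Gam_bdd h hf hx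
  have hpos : 0 < Ex d (fun i => Gam d f x (Ex d f x) (i + 1)) y := by
    apply Ex_pos h (Lin.of_bdd (C := B) (fun i => hB (i + 1))) (fun i => Gam_nonneg h hf hmono hx (i + 1))
      (k := k) _ hy
    have h2 := Gam_step (d := d) f hx (Ex d f x) k
    have h3 := Gam_nonneg h hf hmono hx (k + 2)
    have h4 := Gam_nonneg h hf hmono hx k
    have h5 := h.dnonneg k
    have h6 := h.dnonneg (k + 1)
    have h7 : 0 < (x + d (k + 1)) * Gam d f x (Ex d f x) (k + 1) := by
      rw [h2]
      have := mul_nonneg h5 h4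
      have := mul_nonneg hx.le h3
      linarith
    exact (mul_pos_iff_of_pos_left (by linarith)).1 h7
  have : 0 < (y - x) * Ex d (fun i => Gam d f x (Ex d f x) (i + 1)) y :=
    mul_pos (by linarith) hpos
  linarith

/-- increments of `Gam` are nonnegative -/
lemma Gam_inc (h : Good d c0) {f : ℕ → ℝ} (hf : Lin f) {x : ℝ} (hx : 0 < x)
    (hr : ∀ i, 0 ≤ (f (i + 2) - 2 * f (i + 1) + f i)
      - (d (i + 2) - 2 * d (i + 1) + d i) * Gam d f x (Ex d f x) (i + 1)) (i : ℕ) :
    Gam d f x (Ex d f x) (i + 1) ≤ Gam d f x (Ex d f x) (i + 2) := by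
  set Γ := Gam d f x (Ex d f x) with hΓ
  obtain ⟨B, hB⟩ := Gam_bdd h hf hx
  rw [← hΓ] at hB
  have hrec : ∀ i, x * ((Γ (i + 3) - Γ (i + 2)) - (Γ (i + 2) - Γ (i + 1)))
      ≤ d (i + 2) * (Γ (i + 2) - Γ (i + 1)) - d i * (Γ (i + 1) - Γ i) := by
    intro i
    have h1 := Gam_eq (d := d) f hx (Ex d f x) i
    have h2 := Gam_eq (d := d) f hx (Ex d f x) (i + 1)
    have h3 := Gam_eq (d := d) f hx (Ex d f x) (i + 2)
    have h4 := hr i
    rw [← hΓ] at h1 h2 h3
    have e : i + 1 + 1 = i + 2 := rfl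
    have e' : i + 2 + 1 = i + 3 := rfl
    rw [e] at h2
    rw [e'] at h3
    nlinarith
  by_contra hcon
  push Not at hcon
  -- minimal counterexample
  have hex : ∃ i, Γ (i + 2) < Γ (i + 1) := ⟨i, hcon⟩
  classical
  set i0 := Nat.find hex with hi0
  have hlt : Γ (i0 + 2) < Γ (i0 + 1) := Nat.find_spec hex
  have hbefore : 0 ≤ d i0 * (Γ (i0 + 1) - Γ i0) := by
    rcases Nat.eq_zero_or_pos i0 with h0 | h0
    · rw [h0, h.zero, zero_mul]
    · obtain ⟨j, hj⟩ := Nat.exists_eq_succ_of_ne_zero h0.ne'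
      have := Nat.find_min hex (m := j) (by omega)
      push Not at this
      have e : i0 = j + 1 := hj
      rw [e]
      apply mul_nonneg (h.dnonneg _)
      have : Γ (j + 1) ≤ Γ (j + 2) := this
      have e2 : j + 1 + 1 = j + 2 := rfl
      rw [e2]
      linarith
  have hstep : ∀ k, Γ (i0 + k + 3) - Γ (i0 + k + 2) ≤ Γ (i0 + k + 2) - Γ (i0 + k + 1) ∧
      Γ (i0 + k + 2) - Γ (i0 + k + 1) ≤ Γ (i0 + 2) - Γ (i0 + 1) := by
    intro k
    induction k with
    | zero =>
      simp only [add_zero]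
      refine ⟨?_, le_rfl⟩
      have h1 := hrec i0
      have h2 := h.dnonneg (i0 + 2)
      have h3 : x * ((Γ (i0 + 3) - Γ (i0 + 2)) - (Γ (i0 + 2) - Γ (i0 + 1))) ≤ 0 := by nlinarith
      have h4 : (Γ (i0 + 3) - Γ (i0 + 2)) - (Γ (i0 + 2) - Γ (i0 + 1)) ≤ 0 := by
        by_contra h5
        push Not at h5
        have := mul_pos hx h5
        linarith
      linarith
    | succ k ih =>
      obtain ⟨ih1, ih2⟩ := ih
      have h1 := hrec (i0 + k + 1)
      have e1 : i0 + k + 1 + 3 = i0 + (k + 1) + 3 := by ring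
      have e2 : i0 + k + 1 + 2 = i0 + (k + 1) + 2 := by ring
      have e3 : i0 + k + 1 + 1 = i0 + (k + 1) + 1 := by ring
      have e4 : i0 + k + 3 = i0 + (k + 1) + 2 := by ring
      have e5 : i0 + k + 2 = i0 + (k + 1) + 1 := by ring
      have e6 : i0 + k + 1 = i0 + (k + 1) := by ring
      rw [e1, e2, e3, e6] at h1
      rw [e4, e5, e6] at ih1
      rw [e5, e6] at ih2
      refine ⟨?_, ih1.trans ih2⟩
      have hneg : Γ (i0 + (k + 1) + 2) - Γ (i0 + (k + 1) + 1) < 0 := by linarith
      have hd1 := h.dnonneg (i0 + (k + 1))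
      have hd2 : d (i0 + (k + 1)) ≤ d (i0 + (k + 1) + 2) := h.mono.monotone (by omega)
      have h3 : x * ((Γ (i0 + (k + 1) + 3) - Γ (i0 + (k + 1) + 2))
          - (Γ (i0 + (k + 1) + 2) - Γ (i0 + (k + 1) + 1))) ≤ 0 := by nlinarith
      have h4 : (Γ (i0 + (k + 1) + 3) - Γ (i0 + (k + 1) + 2))
          - (Γ (i0 + (k + 1) + 2) - Γ (i0 + (k + 1) + 1)) ≤ 0 := by
        by_contra h5
        push Not at h5
        have := mul_pos hx h5
        linarith
      linarith
  set δ := Γ (i0 + 1) - Γ (i0 + 2) with hδ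
  have hδ0 : 0 < δ := by linarith
  have hlin : ∀ k : ℕ, Γ (i0 + k + 1) ≤ Γ (i0 + 1) - k * δ := by
    intro k
    induction k with
    | zero => simp
    | succ k ih =>
      have h1 := (hstep k).2
      have e : i0 + (k + 1) + 1 = i0 + k + 2 := by ring
      rw [e]
      push_cast
      linarith
  obtain ⟨k, hk⟩ := exists_nat_gt ((2 * B) / δ)
  rw [div_lt_iff₀ hδ0] at hk
  have h1 := hlin k
  have h2 := abs_le.1 (hB (i0 + 1))
  have h3 := abs_le.1 (hB (i0 + k + 1))
  linarith [h2.1, h2.2, h3.1, h3.2]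

/-- strict convexity of stationary expectations -/
theorem strictConvex (h : Good d c0) {f : ℕ → ℝ} (hf : Lin f) (k : ℕ)
    (hr : ∀ x, 0 < x → ∀ i, 0 ≤ (f (i + 2) - 2 * f (i + 1) + f i)
      - (d (i + 2) - 2 * d (i + 1) + d i) * Gam d f x (Ex d f x) (i + 1))
    (hk : ∀ x, 0 < x → 0 < (f (k + 2) - 2 * f (k + 1) + f k)
      - (d (k + 2) - 2 * d (k + 1) + d k) * Gam d f x (Ex d f x) (k + 1)) :
    StrictConvexOn ℝ (Set.Ioi 0) (Ex d f) := by
  apply strictConvexOn_of_slope_strict_mono_adjacent (convex_Ioi 0)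
  intro x y z hx hz hxy hyz
  have hx' : (0 : ℝ) < x := hx
  have hy' : (0 : ℝ) < y := hx'.trans hxy
  have hz' : (0 : ℝ) < z := hz
  set G : ℕ → ℝ := fun i => Gam d f x (Ex d f x) (i + 1) with hG
  obtain ⟨B, hB⟩ := Gam_bdd h hf hx'
  have hGl : Lin G := Lin.of_bdd (C := B) (fun i => hB (i + 1))
  have hinc := Gam_inc h hf hx' (hr x hx')
  have hGm : Monotone G := monotone_nat_of_le_succ (fun i => hinc i)
  have hGk : G k < G (k + 1) := by
    have h1 := Gam_eq (d := d) f hx' (Ex d f x) k
    have h2 := Gam_eq (d := d) f hx' (Ex d f x) (k + 1)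
    have h3 := Gam_eq (d := d) f hx' (Ex d f x) (k + 2)
    have h4 := hk x hx'
    have h5 := hinc k
    have h6 := hinc (k + 1)
    have h8 := h.dnonneg k
    have h9 := h.dpos (k + 1)
    have hkm : 0 ≤ d k * (Gam d f x (Ex d f x) (k + 1) - Gam d f x (Ex d f x) k) := by
      rcases k with _ | k
      · rw [h.zero, zero_mul]
      · exact mul_nonneg (h.dnonneg _) (sub_nonneg.2 (hinc k))
    simp only [hG]
    have e1 : k + 1 + 1 = k + 2 := rfl
    have e2 : k + 2 + 1 = k + 3 := rfl
    have e3 : k + 1 + 2 = k + 3 := rfl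
    rw [e1] at h2 h9 h6 ⊢
    rw [e2] at h3
    rw [e3] at h6
    set Γ := Gam d f x (Ex d f x) with hΓ
    -- (x + d (k+2)) * (Γ (k+2) - Γ (k+1)) = x (Γ(k+3)-Γ(k+2)) + d k (Γ(k+1) - Γ k) + r
    have h10 : 0 < (x + d (k + 2)) * (Γ (k + 2) - Γ (k + 1)) := by
      have h11 : (x + d (k + 2)) * (Γ (k + 2) - Γ (k + 1))
          = x * (Γ (k + 3) - Γ (k + 2)) + d k * (Γ (k + 1) - Γ k)
            + ((f (k + 2) - 2 * f (k + 1) + f k)
              - (d (k + 2) - 2 * d (k + 1) + d k) * Γ (k + 1)) := by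
        linear_combination 2 * h2 - h1 - h3
      rw [h11]
      have := mul_nonneg hx'.le (sub_nonneg.2 h6)
      linarith
    have := (mul_pos_iff_of_pos_left (by linarith : 0 < x + d (k + 2))).1 h10
    linarith
  have h1 := perf h hf hx' hy'
  have h2 := perf h hf hx' hz'
  have h3 := Ex_strictMono h hGl hGm hGk hy' hyz
  rw [div_lt_div_iff₀ (by linarith) (by linarith)]
  have hS1 : Ex d f y - Ex d f x = (y - x) * Ex d G y := h1
  have hS2 : Ex d f z - Ex d f x = (z - x) * Ex d G z := h2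
  have e : Ex d f z - Ex d f y = (z - x) * Ex d G z - (y - x) * Ex d G y := by linarith
  rw [hS1, e]
  nlinarith [mul_pos (sub_pos.2 hxy) (mul_pos (sub_pos.2 (hxy.trans hyz)) (sub_pos.2 h3))]

end general


section smooth

variable {d : ℕ → ℝ} {c0 : ℝ}

lemma F_contDiff (h : Good d c0) {f : ℕ → ℝ} (hf : Lin f) : ContDiff ℝ ⊤ (F d f) := by
  set p := FormalMultilinearSeries.ofScalars ℝ (fun i => f i * w d i) with hp
  have hr : p.radius = ⊤ := by
    apply FormalMultilinearSeries.radius_eq_top_of_summable_norm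
    intro r
    have h1 := (h.summable hf r.2).norm
    refine h1.congr (fun i => ?_)
    rw [hp, FormalMultilinearSeries.ofScalars_norm, norm_mul (f i * w d i)]
    congr 1
    rw [norm_pow]
    congr 1
    exact Real.norm_of_nonneg r.2
  have h1 : HasFPowerSeriesOnBall p.sum p 0 p.radius := p.hasFPowerSeriesOnBall (by rw [hr]; simp)
  have h2 : p.sum = F d f := by
    funext x
    unfold F
    change FormalMultilinearSeries.ofScalarsSum (fun i => f i * w d i) x = _
    rw [FormalMultilinearSeries.ofScalars_sum_eq]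
    simp
  rw [h2, hr] at h1
  have h3 := h1.analyticOnNhd
  rw [contDiff_iff_contDiffAt]
  intro x
  have h4 : AnalyticAt ℝ (F d f) x := h3 x (by simp)
  exact h4.contDiffAt

lemma W_eq_F (x : ℝ) : W d x = F d (fun _ => 1) x := by
  unfold W F; simp

lemma Ex_contDiffOn (h : Good d c0) {f : ℕ → ℝ} (hf : Lin f) : ContDiffOn ℝ ⊤ (Ex d f) (Set.Ioi 0) := by
  unfold Ex
  have hone : Lin (fun _ : ℕ => (1 : ℝ)) := Lin.of_bdd (C := 1) (by simp)
  have h1 : ContDiffOn ℝ ⊤ (fun x => F d f x / F d (fun _ => 1) x) (Set.Ioi 0) := by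
    apply (F_contDiff h hf).contDiffOn.div (F_contDiff h hone).contDiffOn
    intro x hx
    rw [← W_eq_F]
    exact (h.Wpos (le_of_lt hx)).ne'
  refine h1.congr (fun x _ => ?_)
  rw [W_eq_F]

lemma Ex_mono_fun (h : Good d c0) {f g : ℕ → ℝ} (hf : Lin f) (hg : Lin g) (hfg : ∀ i, f i ≤ g i)
    {x : ℝ} (hx : 0 < x) : Ex d f x ≤ Ex d g x := by
  unfold Ex
  apply div_le_div_of_nonneg_right _ (h.Wpos hx.le).le
  unfold F
  apply (h.summable hf hx.le).tsum_le_tsum _ (h.summable hg hx.le)
  intro i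
  have := h.wpos i
  have := hfg i
  gcongr

lemma Ex_d (h : Good d c0) (hd : Lin d) {x : ℝ} (hx : 0 < x) : Ex d d x = x := by
  unfold Ex F
  have hs := h.summable hd hx.le
  rw [hs.tsum_eq_zero_add, h.zero]
  simp only [zero_mul, zero_add]
  have : ∀ i, d (i + 1) * w d (i + 1) * x ^ (i + 1) = x * (w d i * x ^ i) := by
    intro i; rw [h.dw]; ring
  simp only [this]
  rw [tsum_mul_left]
  exact mul_div_cancel_right₀ x (h.Wpos hx.le).ne'

lemma Gam_neg (f : ℕ → ℝ) (x c : ℝ) (i : ℕ) :
    Gam d (fun i => (-1) * f i) x (-c) i = - Gam d f x c i := by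
  induction i with
  | zero => change (0 : ℝ) = -0; simp
  | succ i ih =>
    change (-c - (-1) * f i + d i * Gam d (fun i => (-1) * f i) x (-c) i) / x
      = - ((c - f i + d i * Gam d f x c i) / x)
    rw [ih]; ring

lemma Gam_nonpos (h : Good d c0) {f : ℕ → ℝ} (hf : Lin f) (hanti : Antitone f) {x : ℝ} (hx : 0 < x)
    (i : ℕ) : Gam d f x (Ex d f x) i ≤ 0 := by
  have hl : Lin (fun i => (-1) * f i) := by
    obtain ⟨C, hC⟩ := hf
    exact ⟨C, fun i => by simpa using hC i⟩
  have hm : Monotone (fun i => (-1) * f i) := by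
    intro a b hab
    have := hanti hab
    simp only
    linarith
  have h1 := Gam_nonneg h hl hm hx i
  rw [Ex_smul, show (-1 : ℝ) * Ex d f x = - Ex d f x by ring, Gam_neg] at h1
  linarith

end smooth

section queue

variable (D : Discipline) (m : ℕ) (μ θ : ℝ)

lemma aband_lin (hθ : 0 < θ) : Lin (abandonRate D m θ) := by
  refine ⟨θ, fun i => ?_⟩
  have hi : (0 : ℝ) ≤ i := Nat.cast_nonneg i
  cases D
  · change |((i - m : ℕ) : ℝ) * θ| ≤ _
    have h1 : ((i - m : ℕ) : ℝ) ≤ i := by exact_mod_cast Nat.sub_le i m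
    rw [abs_of_nonneg (by positivity)]
    nlinarith
  · change |(i : ℝ) * θ| ≤ _
    rw [abs_of_nonneg (by positivity)]
    nlinarith

lemma min_lin : Lin (fun i : ℕ => ((min i m : ℕ) : ℝ) * μ) := by
  apply Lin.of_bdd (C := (m : ℝ) * |μ|)
  intro i
  rw [abs_mul, abs_of_nonneg (Nat.cast_nonneg _)]
  have : ((min i m : ℕ) : ℝ) ≤ m := by exact_mod_cast Nat.min_le_right i m
  gcongr

lemma death_lin (hθ : 0 < θ) : Lin (deathRate D m μ θ) := by
  obtain ⟨C, hC⟩ := aband_lin D m θ hθ
  obtain ⟨C', hC'⟩ := min_lin m μ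
  refine ⟨C' + C, fun i => ?_⟩
  unfold deathRate
  refine (abs_add_le _ _).trans ?_
  have := hC i
  have := hC' i
  linarith

lemma good (hμ : 0 < μ) (hθ : 0 < θ) : Good (deathRate D m μ θ) (min μ θ) where
  zero := by
    unfold deathRate abandonRate
    cases D <;> simp
  inc i := by
    unfold deathRate
    cases D
    · change ((min i m : ℕ) : ℝ) * μ + ((i - m : ℕ) : ℝ) * θ
        < ((min (i + 1) m : ℕ) : ℝ) * μ + ((i + 1 - m : ℕ) : ℝ) * θ
      rcases Nat.lt_or_ge i m with hi | hi
      · rw [min_eq_left hi.le, min_eq_left (by omega : i + 1 ≤ m), Nat.sub_eq_zero_of_le hi.le,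
          Nat.sub_eq_zero_of_le (by omega : i + 1 ≤ m)]
        push_cast
        nlinarith
      · rw [min_eq_right hi, min_eq_right (by omega : m ≤ i + 1), Nat.sub_add_comm hi]
        push_cast
        nlinarith
    · change ((min i m : ℕ) : ℝ) * μ + (i : ℝ) * θ
        < ((min (i + 1) m : ℕ) : ℝ) * μ + ((i + 1 : ℕ) : ℝ) * θ
      have : ((min i m : ℕ) : ℝ) ≤ ((min (i + 1) m : ℕ) : ℝ) := by
        exact_mod_cast min_le_min_right m (Nat.le_succ i)
      have e : ((i + 1 : ℕ) : ℝ) = i + 1 := by push_cast; rfl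
      rw [e]
      nlinarith
  pos := lt_min hμ hθ
  lin i := by
    unfold deathRate
    have h1 : min μ θ ≤ μ := min_le_left _ _
    have h2 : min μ θ ≤ θ := min_le_right _ _
    cases D
    · change min μ θ * i ≤ ((min i m : ℕ) : ℝ) * μ + ((i - m : ℕ) : ℝ) * θ
      have h3 : (i : ℝ) = ((min i m : ℕ) : ℝ) + ((i - m : ℕ) : ℝ) := by
        have : i = min i m + (i - m) := by omega
        exact_mod_cast this
      have h4 : (0 : ℝ) ≤ ((min i m : ℕ) : ℝ) := Nat.cast_nonneg _
      have h5 : (0 : ℝ) ≤ ((i - m : ℕ) : ℝ) := Nat.cast_nonneg _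
      conv_lhs => rw [h3]
      nlinarith
    · change min μ θ * i ≤ ((min i m : ℕ) : ℝ) * μ + (i : ℝ) * θ
      have h4 : (0 : ℝ) ≤ ((min i m : ℕ) : ℝ) := Nat.cast_nonneg _
      have h5 : (0 : ℝ) ≤ i := Nat.cast_nonneg _
      nlinarith

lemma weight_eq (lam : ℝ) (i : ℕ) :
    weight D m μ θ lam i = w (deathRate D m μ θ) i * lam ^ i := by
  induction i with
  | zero => simp [weight, w]
  | succ i ih =>
    have h1 : weight D m μ θ lam (i + 1) = weight D m μ θ lam i * (lam / deathRate D m μ θ (i + 1)) := by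
      unfold weight
      rw [Finset.prod_Icc_succ_top (by omega)]
    rw [h1, ih]
    change _ = w (deathRate D m μ θ) i / deathRate D m μ θ (i + 1) * lam ^ (i + 1)
    ring

lemma mar_eq (lam : ℝ) :
    meanAbandonRate D m μ θ lam = Ex (deathRate D m μ θ) (abandonRate D m θ) lam := by
  unfold meanAbandonRate statLaw Ex F W
  simp only [weight_eq]
  rw [← tsum_div_const]
  congr 1
  ext i
  ring

/-- flow balance -/
lemma mar_balance (hμ : 0 < μ) (hθ : 0 < θ) {lam : ℝ} (hl : 0 < lam) :
    meanAbandonRate D m μ θ lam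
      = lam - Ex (deathRate D m μ θ) (fun i => ((min i m : ℕ) : ℝ) * μ) lam := by
  have h := good D m μ θ hμ hθ
  have h1 := Ex_d h (death_lin D m μ θ hθ) hl
  have h2 := Ex_add h (min_lin m μ) (aband_lin D m θ hθ) hl.le
  rw [mar_eq]
  have h3 : Ex (deathRate D m μ θ) (deathRate D m μ θ) lam
    = Ex (deathRate D m μ θ) (fun i => ((min i m : ℕ) : ℝ) * μ + abandonRate D m θ i) lam := rfl
  linarith

lemma aband_mono (hθ : 0 < θ) : Monotone (abandonRate D m θ) := by
  intro a b hab
  unfold abandonRate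
  cases D
  · change ((a - m : ℕ) : ℝ) * θ ≤ ((b - m : ℕ) : ℝ) * θ
    have : ((a - m : ℕ) : ℝ) ≤ ((b - m : ℕ) : ℝ) := by
      exact_mod_cast Nat.sub_le_sub_right hab m
    gcongr
  · change (a : ℝ) * θ ≤ (b : ℝ) * θ
    have : (a : ℝ) ≤ b := by exact_mod_cast hab
    gcongr

lemma aband_strict (hθ : 0 < θ) : abandonRate D m θ m < abandonRate D m θ (m + 1) := by
  unfold abandonRate
  cases D
  · change ((m - m : ℕ) : ℝ) * θ < ((m + 1 - m : ℕ) : ℝ) * θ
    rw [Nat.sub_self, Nat.add_sub_cancel_left]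
    push_cast; linarith
  · change (m : ℝ) * θ < ((m + 1 : ℕ) : ℝ) * θ
    push_cast; nlinarith

lemma mar_strictMono (hμ : 0 < μ) (hθ : 0 < θ) :
    StrictMonoOn (meanAbandonRate D m μ θ) (Set.Ioi 0) := by
  intro x hx y _ hxy
  rw [mar_eq, mar_eq]
  exact Ex_strictMono (good D m μ θ hμ hθ) (aband_lin D m θ hθ) (aband_mono D m θ hθ)
    (aband_strict D m θ hθ) hx hxy

/-- second differences of the number of busy servers -/
lemma dd_min (hm : 1 ≤ m) (i : ℕ) : ((min (i + 2) m : ℕ) : ℝ) - 2 * ((min (i + 1) m : ℕ) : ℝ)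
    + ((min i m : ℕ) : ℝ) = if i + 1 = m then -1 else 0 := by
  split_ifs with h
  · subst h
    rw [min_eq_right (by omega : i + 1 ≤ i + 2), min_self, min_eq_left (by omega : i ≤ i + 1)]
    push_cast; ring
  · rcases Nat.lt_or_ge (i + 1) m with h1 | h1
    · rw [min_eq_left (by omega : i + 2 ≤ m), min_eq_left (by omega : i + 1 ≤ m),
        min_eq_left (by omega : i ≤ m)]
      push_cast; ring
    · rw [min_eq_right (by omega : m ≤ i + 2), min_eq_right (by omega : m ≤ i + 1),
        min_eq_right (by omega : m ≤ i)]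
      ring

/-- second differences of the excess -/
lemma dd_sub (hm : 1 ≤ m) (i : ℕ) : ((i + 2 - m : ℕ) : ℝ) - 2 * ((i + 1 - m : ℕ) : ℝ)
    + ((i - m : ℕ) : ℝ) = if i + 1 = m then 1 else 0 := by
  split_ifs with h
  · subst h
    rw [show i + 2 - (i + 1) = 1 by omega, show i + 1 - (i + 1) = 0 by omega,
      show i - (i + 1) = 0 by omega]
    norm_num
  · rcases Nat.lt_or_ge (i + 1) m with h1 | h1
    · rw [show i + 2 - m = 0 by omega, show i + 1 - m = 0 by omega, show i - m = 0 by omega]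
      norm_num
    · obtain ⟨k, hk⟩ : ∃ k, i = m + k := ⟨i - m, by omega⟩
      subst hk
      rw [show m + k + 2 - m = k + 2 by omega, show m + k + 1 - m = k + 1 by omega,
        show m + k - m = k by omega]
      push_cast; ring

lemma mar_strictConvex (hm : 1 ≤ m) (hμ : 0 < μ) (hθ : 0 < θ) :
    StrictConvexOn ℝ (Set.Ioi 0) (meanAbandonRate D m μ θ) := by
  have h := good D m μ θ hμ hθ
  have hmm : m - 1 + 1 = m := by omega
  cases D
  · -- DBS
    rcases le_total θ μ with hle | hle
    · -- concave death rates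
      have hfun : meanAbandonRate Discipline.DBS m μ θ
          = Ex (deathRate Discipline.DBS m μ θ) (abandonRate Discipline.DBS m θ) := by
        funext x; exact mar_eq _ _ _ _ _
      rw [hfun]
      have key : ∀ x, 0 < x → ∀ i, (abandonRate Discipline.DBS m θ (i + 2)
          - 2 * abandonRate Discipline.DBS m θ (i + 1) + abandonRate Discipline.DBS m θ i)
          - (deathRate Discipline.DBS m μ θ (i + 2) - 2 * deathRate Discipline.DBS m μ θ (i + 1)
            + deathRate Discipline.DBS m μ θ i)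
            * Gam (deathRate Discipline.DBS m μ θ) (abandonRate Discipline.DBS m θ) x
              (Ex (deathRate Discipline.DBS m μ θ) (abandonRate Discipline.DBS m θ) x) (i + 1)
          = if i + 1 = m then θ + (μ - θ) * Gam (deathRate Discipline.DBS m μ θ)
            (abandonRate Discipline.DBS m θ) x
              (Ex (deathRate Discipline.DBS m μ θ) (abandonRate Discipline.DBS m θ) x) (i + 1)
            else 0 := by
        intro x hx i
        set γ := Gam (deathRate Discipline.DBS m μ θ) (abandonRate Discipline.DBS m θ) x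
              (Ex (deathRate Discipline.DBS m μ θ) (abandonRate Discipline.DBS m θ) x) (i + 1)
        have e1 := dd_min m hm i
        have e2 := dd_sub m hm i
        have e3 : ∀ j, abandonRate Discipline.DBS m θ j = ((j - m : ℕ) : ℝ) * θ := fun j => rfl
        have e4 : ∀ j, deathRate Discipline.DBS m μ θ j = ((min j m : ℕ) : ℝ) * μ + ((j - m : ℕ) : ℝ) * θ :=
          fun j => rfl
        simp only [e3, e4]
        split_ifs at e1 e2 ⊢ with hi
        · linear_combination θ * e2 - (μ * e1 + θ * e2) * γ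
        · linear_combination θ * e2 - (μ * e1 + θ * e2) * γ
      have hnn : ∀ x, 0 < x → ∀ i, 0 ≤ Gam (deathRate Discipline.DBS m μ θ) (abandonRate Discipline.DBS m θ) x
              (Ex (deathRate Discipline.DBS m μ θ) (abandonRate Discipline.DBS m θ) x) i :=
        fun x hx i => Gam_nonneg h (aband_lin _ m θ hθ) (aband_mono _ m θ hθ) hx i
      apply strictConvex h (aband_lin _ m θ hθ) (m - 1)
      · intro x hx i
        rw [key x hx i]
        split_ifs
        · have := mul_nonneg (sub_nonneg.2 hle) (hnn x hx (i + 1))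
          linarith
        · exact le_rfl
      · intro x hx
        rw [key x hx (m - 1), if_pos hmm]
        have := mul_nonneg (sub_nonneg.2 hle) (hnn x hx (m - 1 + 1))
        linarith
    · -- convex death rates
      set d := deathRate Discipline.DBS m μ θ with hd
      set f : ℕ → ℝ := fun i => (-1) * (((min i m : ℕ) : ℝ) * μ) with hf
      have hfl : Lin f := by
        obtain ⟨C, hC⟩ := min_lin m μ
        exact ⟨C, fun i => by rw [hf]; simpa using hC i⟩
      have hanti : Antitone f := by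
        intro a b hab
        simp only [hf]
        have : ((min a m : ℕ) : ℝ) ≤ ((min b m : ℕ) : ℝ) := by
          exact_mod_cast min_le_min_right m hab
        nlinarith
      have hcf : StrictConvexOn ℝ (Set.Ioi 0) (Ex d f) := by
        have key : ∀ x, 0 < x → ∀ i, (f (i + 2) - 2 * f (i + 1) + f i)
            - (d (i + 2) - 2 * d (i + 1) + d i) * Gam d f x (Ex d f x) (i + 1)
            = if i + 1 = m then μ + (θ - μ) * (- Gam d f x (Ex d f x) (i + 1)) else 0 := by
          intro x hx i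
          set γ := Gam d f x (Ex d f x) (i + 1)
          have e1 := dd_min m hm i
          have e2 := dd_sub m hm i
          have e3 : ∀ j, f j = (-1) * (((min j m : ℕ) : ℝ) * μ) := fun j => rfl
          have e4 : ∀ j, d j = ((min j m : ℕ) : ℝ) * μ + ((j - m : ℕ) : ℝ) * θ := fun j => rfl
          simp only [e3, e4]
          split_ifs at e1 e2 ⊢ with hi
          · linear_combination (- μ) * e1 - (μ * e1 + θ * e2) * γ
          · linear_combination (- μ) * e1 - (μ * e1 + θ * e2) * γ
        have hnp : ∀ x, 0 < x → ∀ i, Gam d f x (Ex d f x) i ≤ 0 :=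
          fun x hx i => Gam_nonpos h hfl hanti hx i
        apply strictConvex h hfl (m - 1)
        · intro x hx i
          rw [key x hx i]
          split_ifs
          · have := mul_nonneg (sub_nonneg.2 hle) (neg_nonneg.2 (hnp x hx (i + 1)))
            linarith
          · exact le_rfl
        · intro x hx
          rw [key x hx (m - 1), if_pos hmm]
          have := mul_nonneg (sub_nonneg.2 hle) (neg_nonneg.2 (hnp x hx (m - 1 + 1)))
          linarith
      have hlin : ConvexOn ℝ (Set.Ioi (0 : ℝ)) (fun x : ℝ => x) := convexOn_id (convex_Ioi 0)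
      have hsum := hcf.add_convexOn hlin
      refine hsum.congr ?_
      intro x hx
      rw [mar_balance _ m μ θ hμ hθ hx]
      simp only [Pi.add_apply, hf]
      rw [Ex_smul]
      ring
  · -- DES
    have hfun : meanAbandonRate Discipline.DES m μ θ
        = Ex (deathRate Discipline.DES m μ θ) (abandonRate Discipline.DES m θ) := by
      funext x; exact mar_eq _ _ _ _ _
    rw [hfun]
    set d := deathRate Discipline.DES m μ θ with hd
    set f := abandonRate Discipline.DES m θ with hf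
    have hfl : Lin f := aband_lin _ m θ hθ
    have hfm : Monotone f := aband_mono _ m θ hθ
    have key : ∀ x, 0 < x → ∀ i, (f (i + 2) - 2 * f (i + 1) + f i)
        - (d (i + 2) - 2 * d (i + 1) + d i) * Gam d f x (Ex d f x) (i + 1)
        = if i + 1 = m then μ * Gam d f x (Ex d f x) (i + 1) else 0 := by
      intro x hx i
      set γ := Gam d f x (Ex d f x) (i + 1)
      have e1 := dd_min m hm i
      have e3 : ∀ j, f j = (j : ℝ) * θ := fun j => rfl
      have e4 : ∀ j, d j = ((min j m : ℕ) : ℝ) * μ + (j : ℝ) * θ := fun j => rfl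
      simp only [e3, e4]
      push_cast at e1 ⊢
      split_ifs at e1 ⊢ with hi
      · linear_combination (- μ * γ) * e1
      · linear_combination (- μ * γ) * e1
    have hnn : ∀ x, 0 < x → ∀ i, 0 ≤ Gam d f x (Ex d f x) i :=
      fun x hx i => Gam_nonneg h hfl hfm hx i
    apply strictConvex h hfl (m - 1)
    · intro x hx i
      rw [key x hx i]
      split_ifs
      · exact mul_nonneg hμ.le (hnn x hx (i + 1))
      · exact le_rfl
    · intro x hx
      rw [key x hx (m - 1), if_pos hmm]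
      apply mul_pos hμ
      have h2 := Gam_step (d := d) f hx (Ex d f x) (m - 1)
      have h3 := hnn x hx (m - 1 + 2)
      have h4 := hnn x hx (m - 1)
      have h5 := h.dnonneg (m - 1)
      have h6 := h.dnonneg (m - 1 + 1)
      have e3 : ∀ j, f j = (j : ℝ) * θ := fun j => rfl
      have h7 : 0 < (x + d (m - 1 + 1)) * Gam d f x (Ex d f x) (m - 1 + 1) := by
        rw [h2, e3, e3]
        have := mul_nonneg h5 h4
        have := mul_nonneg hx.le h3
        push_cast
        nlinarith
      exact (mul_pos_iff_of_pos_left (by linarith)).1 h7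

lemma mar_contDiffOn (hμ : 0 < μ) (hθ : 0 < θ) :
    ContDiffOn ℝ ⊤ (meanAbandonRate D m μ θ) (Set.Ioi 0) := by
  have hfun : meanAbandonRate D m μ θ = Ex (deathRate D m μ θ) (abandonRate D m θ) := by
    funext x; exact mar_eq _ _ _ _ _
  rw [hfun]
  exact Ex_contDiffOn (good D m μ θ hμ hθ) (aband_lin D m θ hθ)

lemma mar_diff (hμ : 0 < μ) (hθ : 0 < θ) {x : ℝ} (hx : 0 < x) :
    DifferentiableAt ℝ (meanAbandonRate D m μ θ) x :=
  ((mar_contDiffOn D m μ θ hμ hθ).differentiableOn (by simp) x hx).differentiableAt (Ioi_mem_nhds hx)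

lemma mar_deriv_tendsto (hm : 1 ≤ m) (hμ : 0 < μ) (hθ : 0 < θ) :
    Tendsto (deriv (meanAbandonRate D m μ θ)) atTop (𝓝 1) := by
  have h := good D m μ θ hμ hθ
  have hconv := (mar_strictConvex D m μ θ hm hμ hθ).convexOn
  set b : ℝ → ℝ := Ex (deathRate D m μ θ) (fun i => ((min i m : ℕ) : ℝ) * μ) with hb
  have hb0 : ∀ x, 0 < x → 0 ≤ b x := by
    intro x hx
    have := Ex_mono_fun h (f := fun _ => 0) (g := fun i => ((min i m : ℕ) : ℝ) * μ)
      (Lin.of_bdd (C := 0) (by simp)) (min_lin m μ) (fun i => by positivity) hx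
    rw [Ex_const h 0 hx.le] at this
    exact this
  have hb1 : ∀ x, 0 < x → b x ≤ m * μ := by
    intro x hx
    have := Ex_mono_fun h (f := fun i => ((min i m : ℕ) : ℝ) * μ) (g := fun _ => (m : ℝ) * μ)
      (min_lin m μ) (Lin.of_bdd (C := |(m : ℝ) * μ|) (fun _ => le_rfl)) (fun i => by
        have : ((min i m : ℕ) : ℝ) ≤ m := by exact_mod_cast Nat.min_le_right i m
        gcongr) hx
    rw [Ex_const h _ hx.le] at this
    exact this
  have hell : ∀ x, 0 < x → meanAbandonRate D m μ θ x = x - b x := fun x hx =>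
    mar_balance D m μ θ hμ hθ hx
  have hlow : ∀ x, 0 < x → 1 - 2 * (m * μ) / x ≤ deriv (meanAbandonRate D m μ θ) x := by
    intro x hx
    have hx2 : 0 < x / 2 := by linarith
    have h1 := hconv.slope_le_deriv (x := x / 2) (y := x) hx2 hx (by linarith)
      (mar_diff D m μ θ hμ hθ hx)
    refine le_trans ?_ h1
    rw [slope_def_field, hell x hx, hell (x / 2) hx2]
    have e : (x - b x - (x / 2 - b (x / 2))) / (x - x / 2) = 1 + 2 * (b (x / 2) - b x) / x := by
      field_simp
      ring
    rw [e]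
    have h2 := hb0 (x / 2) hx2
    have h3 := hb1 x hx
    have h4 : - (2 * (m * μ) / x) ≤ 2 * (b (x / 2) - b x) / x := by
      rw [← neg_div]
      apply div_le_div_of_nonneg_right _ hx.le
      linarith
    linarith
  have hupp : ∀ x, 0 < x → deriv (meanAbandonRate D m μ θ) x ≤ 1 + (m * μ) / x := by
    intro x hx
    have hx2 : 0 < 2 * x := by linarith
    have h1 := hconv.deriv_le_slope (x := x) (y := 2 * x) hx hx2 (by linarith)
      (mar_diff D m μ θ hμ hθ hx)
    refine le_trans h1 ?_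
    rw [slope_def_field, hell x hx, hell (2 * x) hx2]
    have e : (2 * x - b (2 * x) - (x - b x)) / (2 * x - x) = 1 + (b x - b (2 * x)) / x := by
      rw [show 2 * x - x = x by ring]
      field_simp
      ring
    rw [e]
    have h2 := hb0 (2 * x) hx2
    have h3 := hb1 x hx
    have h4 : (b x - b (2 * x)) / x ≤ (m * μ) / x := by
      apply div_le_div_of_nonneg_right _ hx.le
      linarith
    linarith
  have t1 : Tendsto (fun x : ℝ => 1 - 2 * (m * μ) / x) atTop (𝓝 1) := by
    have : Tendsto (fun x : ℝ => 2 * (m * μ) / x) atTop (𝓝 0) := tendsto_const_nhds.div_atTop tendsto_id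
    simpa using this.const_sub 1
  have t2 : Tendsto (fun x : ℝ => 1 + (m * μ) / x) atTop (𝓝 1) := by
    have : Tendsto (fun x : ℝ => (m * μ) / x) atTop (𝓝 0) := tendsto_const_nhds.div_atTop tendsto_id
    simpa using this.const_add 1
  refine tendsto_of_tendsto_of_tendsto_of_le_of_le' t1 t2 ?_ ?_
  · filter_upwards [eventually_gt_atTop 0] with x hx using hlow x hx
  · filter_upwards [eventually_gt_atTop 0] with x hx using hupp x hx

end queue

end

/-- For every `m ≥ 1`, `μ, θ > 0` and under each discipline: the series defining the stationary law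
and the mean abandonment rate `ℓ` converge for every `lam > 0`; `ℓ` is strictly increasing and strictly
convex on `(0,∞)`; `ℓ` and `ℓ'` are smooth there; and `ℓ'` is strictly increasing with limit `1`. -/
theorem result (D : Discipline) (m : ℕ) (hm : 1 ≤ m) (μ θ : ℝ) (hμ : 0 < μ) (hθ : 0 < θ) :
    (∀ lam : ℝ, 0 < lam → Summable (weight D m μ θ lam) ∧
      Summable (fun i => statLaw D m μ θ lam i * abandonRate D m θ i)) ∧
    StrictMonoOn (meanAbandonRate D m μ θ) (Set.Ioi 0) ∧
    StrictConvexOn ℝ (Set.Ioi 0) (meanAbandonRate D m μ θ) ∧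
    ContDiffOn ℝ (⊤ : ℕ∞) (meanAbandonRate D m μ θ) (Set.Ioi 0) ∧
    ContDiffOn ℝ (⊤ : ℕ∞) (deriv (meanAbandonRate D m μ θ)) (Set.Ioi 0) ∧
    StrictMonoOn (deriv (meanAbandonRate D m μ θ)) (Set.Ioi 0) ∧
    Tendsto (deriv (meanAbandonRate D m μ θ)) atTop (𝓝 1) := by
  refine ⟨?_, mar_strictMono D m μ θ hμ hθ, mar_strictConvex D m μ θ hm hμ hθ, ?_, ?_, ?_,
    mar_deriv_tendsto D m μ θ hm hμ hθ⟩
  · intro lam hl
    have h := good D m μ θ hμ hθ
    constructor
    · refine (h.summableW hl.le).congr (fun i => ?_)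
      rw [weight_eq]
    · have h1 := (h.summable (aband_lin D m θ hθ) hl.le).div_const (∑' j, weight D m μ θ lam j)
      refine h1.congr (fun i => ?_)
      unfold statLaw
      rw [weight_eq]
      ring
  · exact (mar_contDiffOn D m μ θ hμ hθ).of_le le_top
  · exact (mar_contDiffOn D m μ θ hμ hθ).deriv_of_isOpen isOpen_Ioi (by simp)
  · exact (mar_strictConvex D m μ θ hm hμ hθ).strictMonoOn_deriv
      (fun x hx => mar_diff D m μ θ hμ hθ hx)

end Pool.Agent.Results.MP_e714e3_pr.Convexity
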